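import Pool.Agent.R811.Cross.Closed
import Pool.Agent.H832R2.JR.Moment

set_option autoImplicit false

/-! The bracket of the diagrams with a given shadow and the bracket of Gauss words. -/

namespace Pool.Agent.R811.Shad

open Finset LaurentPolynomial Pool.Agent.H891R2.Jones Pool.Agent.H832R3.VJ Pool.Agent.R811.Cross
open Pool.Agent.H832R2

variable {n : ℕ} (G : Shadow n)

/-- the Gauss word of a shadow -/
noncomputable def word : JR.GaussWord n :=
  Equiv.ofBijective (fun x : Fin n × Bool => if x.2 then G.q x.1 else G.p x.1) (by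
    constructor
    · rintro ⟨c, b⟩ ⟨c', b'⟩ h
      cases b <;> cases b' <;> simp only [if_true, if_false, Bool.false_eq_true] at h
      · have := G.bij.1 (a₁ := Sum.inl c) (a₂ := Sum.inl c') h
        rw [Sum.inl_injective this]
      · exact absurd h (pq_ne G _ _)
      · exact absurd h.symm (pq_ne G _ _)
      · have := G.bij.1 (a₁ := Sum.inr c) (a₂ := Sum.inr c') h
        rw [Sum.inr_injective this]
    · intro e
      obtain ⟨z, hz⟩ := G.bij.2 e
      rcases z with k | k
      · exact ⟨(k, false), hz⟩
      · exact ⟨(k, true), hz⟩)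

theorem word_false (c : Fin n) : word G (c, false) = G.p c := rfl
theorem word_true (c : Fin n) : word G (c, true) = G.q c := rfl

theorem finRotate_eq (e : Fin (2 * n)) : finRotate (2 * n) e = next e := by
  have h0 : 2 * n ≠ 0 := by have := e.2; omega
  have : NeZero (2 * n) := ⟨h0⟩
  rw [finRotate_apply]
  apply Fin.ext
  show (e + 1 : Fin (2 * n)).val = (e.val + 1) % (2 * n)
  rw [Fin.val_add, Fin.val_one']
  simp

theorem word_next (x : Fin n × Bool) : word G (JR.next (word G) x) = next (word G x) := by
  unfold JR.next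
  rw [Equiv.trans_apply, Equiv.trans_apply, Equiv.apply_symm_apply, finRotate_eq]

/-- the two marked points are joined at the crossing `c` with sign `b`, smoothed by the smoothing `t` -/
def RR (c : Fin n) (b t : Bool) (x y : Fin (2 * n)) : Prop :=
  if t then (x = (G.choice c b).a ∧ y = (G.choice c b).b) ∨ (x = (G.choice c b).c ∧ y = (G.choice c b).d)
  else (x = (G.choice c b).b ∧ y = (G.choice c b).c) ∨ (x = (G.choice c b).d ∧ y = (G.choice c b).a)

theorem RR_iff (c : Fin n) (b t : Bool) (x y : Fin (2 * n)) :
    (RR G c b t x y ∨ RR G c b t y x) ↔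
      if t = b then
        (x = G.p c ∧ y = next (G.q c)) ∨ (y = G.p c ∧ x = next (G.q c)) ∨
        (x = G.q c ∧ y = next (G.p c)) ∨ (y = G.q c ∧ x = next (G.p c))
      else
        (x = G.p c ∧ y = G.q c) ∨ (y = G.p c ∧ x = G.q c) ∨
        (x = next (G.p c) ∧ y = next (G.q c)) ∨ (y = next (G.p c) ∧ x = next (G.q c)) := by
  unfold RR Shadow.choice positive negative Shadow.crossing switch Crossing.sign
  cases G.left c <;> cases b <;> cases t <;> simp <;> tauto

/-- the place of a half edge -/
noncomputable def ph (x : JR.Half n) : Fin (2 * n) := if x.2 then next (word G x.1) else word G x.1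

/-- the half edge which enters a crossing -/
noncomputable def ps (e : Fin (2 * n)) : JR.Half n := ((word G).symm e, false)

/-- the relation of the state `t` -/
def J (s t : Fin n → Bool) (x y : Fin (2 * n)) : Prop := ∃ c, RR G c (s c) (t c) x y

theorem J_mk (s t : Fin n → Bool) (c : Fin n) (x y : Fin (2 * n))
    (h : RR G c (s c) (t c) x y ∨ RR G c (s c) (t c) y x) :
    Quot.mk (J G s t) x = Quot.mk (J G s t) y := by
  rcases h with h | h
  · exact Quot.sound ⟨c, h⟩
  · exact (Quot.sound ⟨c, h⟩).symm

theorem ps_p (c : Fin n) : ps G (G.p c) = ((c, false), false) := by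
  unfold ps
  rw [← word_false, Equiv.symm_apply_apply]

theorem ps_q (c : Fin n) : ps G (G.q c) = ((c, true), false) := by
  unfold ps
  rw [← word_true, Equiv.symm_apply_apply]

theorem ps_next (G : Shadow n) (o : Fin n → Bool) (x : Fin n × Bool) :
    Quot.mk (JR.Joined (word G) o) (ps G (next (word G x))) = Quot.mk (JR.Joined (word G) o) (x, true) := by
  unfold ps
  rw [← word_next, Equiv.symm_apply_apply]
  exact (Quot.sound (r := JR.Joined (word G) o) (a := (x, true)) (b := (JR.next (word G) x, false))
    (Or.inl ⟨x, rfl, rfl⟩)).symm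

theorem ps_mk (s t : Fin n → Bool) (c : Fin n) (x y : Fin (2 * n)) (h : RR G c (s c) (t c) x y) :
    Quot.mk (JR.Joined (word G) (fun c => (t c == s c))) (ps G x) =
      Quot.mk (JR.Joined (word G) (fun c => (t c == s c))) (ps G y) := by
  set o : Fin n → Bool := fun c => (t c == s c) with ho
  have h1 := (RR_iff G c (s c) (t c) x y).1 (Or.inl h)
  have np : Quot.mk (JR.Joined (word G) o) (ps G (next (G.p c))) =
      Quot.mk (JR.Joined (word G) o) ((c, false), true) := ps_next G o (c, false)
  have nq : Quot.mk (JR.Joined (word G) o) (ps G (next (G.q c))) =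
      Quot.mk (JR.Joined (word G) o) ((c, true), true) := ps_next G o (c, true)
  by_cases hc : t c = s c
  · rw [if_pos hc] at h1
    have hoc : o c = true := by rw [ho]; simp [hc]
    have a1 : Quot.mk (JR.Joined (word G) o) ((c, false), false) =
        Quot.mk (JR.Joined (word G) o) ((c, true), true) :=
      Quot.sound (Or.inr (Or.inl ⟨c, false, hoc, rfl, rfl⟩))
    have a2 : Quot.mk (JR.Joined (word G) o) ((c, true), false) =
        Quot.mk (JR.Joined (word G) o) ((c, false), true) :=
      Quot.sound (Or.inr (Or.inl ⟨c, true, hoc, rfl, rfl⟩))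
    rcases h1 with ⟨rfl, rfl⟩ | ⟨rfl, rfl⟩ | ⟨rfl, rfl⟩ | ⟨rfl, rfl⟩
    · rw [nq, ps_p]; exact a1
    · rw [nq, ps_p]; exact a1.symm
    · rw [np, ps_q]; exact a2
    · rw [np, ps_q]; exact a2.symm
  · rw [if_neg hc] at h1
    have hoc : o c = false := by rw [ho]; simp [hc]
    have a1 : Quot.mk (JR.Joined (word G) o) ((c, false), false) =
        Quot.mk (JR.Joined (word G) o) ((c, true), false) :=
      Quot.sound (Or.inr (Or.inr ⟨c, false, hoc, rfl, rfl⟩))
    have a2 : Quot.mk (JR.Joined (word G) o) ((c, false), true) =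
        Quot.mk (JR.Joined (word G) o) ((c, true), true) :=
      Quot.sound (Or.inr (Or.inr ⟨c, true, hoc, rfl, rfl⟩))
    rcases h1 with ⟨rfl, rfl⟩ | ⟨rfl, rfl⟩ | ⟨rfl, rfl⟩ | ⟨rfl, rfl⟩
    · rw [ps_p, ps_q]; exact a1
    · rw [ps_p, ps_q]; exact a1.symm
    · rw [np, nq]; exact a2
    · rw [np, nq]; exact a2.symm

theorem ph_mk (s t : Fin n → Bool) (x y : JR.Half n)
    (h : JR.Joined (word G) (fun c => (t c == s c)) x y) :
    Quot.mk (J G s t) (ph G x) = Quot.mk (J G s t) (ph G y) := by
  rcases h with ⟨p, rfl, rfl⟩ | ⟨c, b, hc, rfl, rfl⟩ | ⟨c, e, hc, rfl, rfl⟩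
  · unfold ph
    simp only [if_true, if_false, Bool.false_eq_true]
    rw [word_next]
  · have hc' : t c = s c := by simpa using hc
    apply J_mk G s t c
    rw [RR_iff, if_pos hc']
    cases b
    · left; exact ⟨rfl, rfl⟩
    · right; right; left; exact ⟨rfl, rfl⟩
  · have hc' : ¬ t c = s c := by simpa using hc
    apply J_mk G s t c
    rw [RR_iff, if_neg hc']
    cases e
    · left; exact ⟨rfl, rfl⟩
    · right; right; left; exact ⟨rfl, rfl⟩

theorem loops_J (s t : Fin n → Bool) :
    JR.loops (word G) (fun c => (t c == s c)) = Nat.card (Quot (J G s t)) := by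
  unfold JR.loops
  apply Nat.card_congr
  refine ⟨Quot.lift (fun x => Quot.mk _ (ph G x)) (ph_mk G s t),
    Quot.lift (fun e => Quot.mk _ (ps G e)) (fun x y ⟨c, h⟩ => ps_mk G s t c x y h), ?_, ?_⟩
  · rintro ⟨⟨x, b⟩⟩
    show Quot.mk _ (ps G (ph G (x, b))) = Quot.mk _ (x, b)
    cases b
    · show Quot.mk _ (ps G (word G x)) = Quot.mk _ (x, false)
      unfold ps
      rw [Equiv.symm_apply_apply]
    · exact ps_next G _ x
  · rintro ⟨e⟩
    show Quot.mk _ (ph G (ps G e)) = Quot.mk _ e
    unfold ph ps
    simp

theorem diagram_length (s : Fin n → Bool) : (G.diagram s).crossings.length = n := by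
  unfold Shadow.diagram
  simp

theorem diagram_get (s : Fin n → Bool) (i : Fin (G.diagram s).crossings.length) :
    (G.diagram s).crossings[i] = G.choice (Fin.cast (diagram_length G s) i) (s (Fin.cast (diagram_length G s) i)) := by
  obtain ⟨i, hi⟩ := i
  have key : ∀ (i : ℕ) (h : i < ((List.finRange n).map (fun i => G.choice i (s i))).length) (h' : i < n),
      ((List.finRange n).map (fun i => G.choice i (s i)))[i]'h = G.choice ⟨i, h'⟩ (s ⟨i, h'⟩) := by
    intro i h h'
    rw [List.getElem_map, List.getElem_finRange]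
    rfl
  exact key i hi (by have := diagram_length G s; omega)

theorem loops_diagram (s t : Fin n → Bool) :
    (G.diagram s).loops (fun i => t (Fin.cast (diagram_length G s) i)) = Nat.card (Quot (J G s t)) := by
  unfold Diagram.loops
  congr 2
  funext x y
  apply propext
  unfold Diagram.Joined J RR
  constructor
  · rintro (h | ⟨i, hi⟩)
    · cases h
    · refine ⟨Fin.cast (diagram_length G s) i, ?_⟩
      rw [diagram_get] at hi
      exact hi
  · rintro ⟨c, hc⟩
    right
    refine ⟨Fin.cast (diagram_length G s).symm c, ?_⟩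
    rw [diagram_get]
    exact hc

theorem choice_sign (c : Fin n) (b : Bool) : (G.choice c b).sign = JR.sgn b := by
  unfold Shadow.choice positive negative Shadow.crossing switch Crossing.sign JR.sgn
  cases G.left c <;> cases b <;> simp

theorem writhe_diagram (s : Fin n → Bool) : (G.diagram s).writhe = JR.writhe s := by
  unfold Diagram.writhe Shadow.diagram JR.writhe
  rw [List.map_map, ← List.ofFn_eq_map, List.sum_ofFn]
  exact Finset.sum_congr rfl fun c _ => choice_sign G c (s c)

/-- the equivalence of the states -/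
def es (s : Fin n → Bool) : (Fin n → Bool) ≃ (Fin n → Bool) where
  toFun t := fun c => (t c == s c)
  invFun o := fun c => (o c == s c)
  left_inv t := by
    funext c
    show ((t c == s c) == s c) = t c
    cases t c <;> cases s c <;> rfl
  right_inv o := by
    funext c
    show ((o c == s c) == s c) = o c
    cases o c <;> cases s c <;> rfl

theorem bracket_diagram (s : Fin n → Bool) : (G.diagram s).bracket = JR.bracket (word G) s := by
  unfold Diagram.bracket JR.bracket
  rw [← Equiv.sum_comp (es s)]
  rw [← Equiv.sum_comp (Equiv.arrowCongr (finCongr (diagram_length G s)) (Equiv.refl Bool)).symm]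
  apply Finset.sum_congr rfl
  intro t _
  have h1 : (Equiv.arrowCongr (finCongr (diagram_length G s)) (Equiv.refl Bool)).symm t =
      fun i => t (Fin.cast (diagram_length G s) i) := rfl
  rw [h1, loops_diagram]
  have h2 : es s t = fun c => (t c == s c) := rfl
  rw [h2, loops_J]
  congr 2
  unfold Diagram.weight JR.weight
  rw [← Equiv.sum_comp (finCongr (diagram_length G s))]
  apply Finset.sum_congr rfl
  intro i _
  show (if t (Fin.cast (diagram_length G s) i) then (1 : ℤ) else -1) =
    JR.sgn (s (Fin.cast (diagram_length G s) i)) *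
      JR.sgn (t (Fin.cast (diagram_length G s) i) == s (Fin.cast (diagram_length G s) i))
  cases t (Fin.cast (diagram_length G s) i) <;> cases s (Fin.cast (diagram_length G s) i) <;> rfl

theorem fPoly_diagram (s : Fin n → Bool) : (G.diagram s).fPoly = JR.fPoly (word G) s := by
  unfold Diagram.fPoly JR.fPoly
  rw [bracket_diagram, writhe_diagram]

theorem rho_moment (f : ℤ[T;T⁻¹]) : JR.rho f 0 2 = moment 2 f := by
  induction f using LaurentPolynomial.induction_on' with
  | add p q hp hq => rw [map_add, Matrix.add_apply, hp, hq, moment_add]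
  | C_mul_T k a =>
    rw [V7.moment_term]
    have : (C a * T k : ℤ[T;T⁻¹]) = a • T k := by
      rw [LaurentPolynomial.smul_eq_C_mul]
    rw [this, map_zsmul, JR.rho_T]
    unfold JR.mmat
    simp

theorem crosses_word (i j : Fin n) : JR.Crosses (word G) i j ↔ G.Interlaced i j := by
  unfold JR.Crosses Shadow.Interlaced Shadow.Between JR.Btw
  rw [word_false, word_false, word_true, word_true]
  have key : ∀ a b x : ℕ, ((a < x ∧ x < b) ∨ (b < x ∧ x < a)) ↔ (min a b < x ∧ x < max a b) := by
    intro a b x; omega
  rw [key, key]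

end Pool.Agent.R811.Shad
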