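import Mathlib

set_option autoImplicit false

/-! The sizes of the cuts of a graph without isolated vertices take at least `n / 3 + 1` values. -/

namespace Pool.Agent.R811.Shad

open Finset

variable {V : Type} [Fintype V] [DecidableEq V]

/-- the total weight of the edges between `X` and its complement -/
def cut (a : V → V → ℤ) (X : Finset V) : ℤ := ∑ i ∈ X, ∑ j ∈ Xᶜ, a i j

theorem cut_insert (a : V → V → ℤ) (hs : ∀ i j, a i j = a j i) (h0 : ∀ i, a i i = 0) (X : Finset V)
    (v : V) (hv : v ∉ X) : cut a (insert v X) = cut a X + ∑ j, a v j - 2 * ∑ j ∈ X, a v j := by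
  unfold cut
  rw [sum_insert hv]
  have e1 : ∀ i, ∑ j ∈ (insert v X)ᶜ, a i j = ∑ j ∈ Xᶜ, a i j - a i v := by
    intro i
    have hm : v ∈ Xᶜ := mem_compl.2 hv
    rw [← sum_erase_add _ _ hm, compl_insert]
    ring
  rw [e1, sum_congr rfl (fun i _ => e1 i), sum_sub_distrib, h0 v, sub_zero]
  have e2 : ∑ i ∈ X, a i v = ∑ j ∈ X, a v j := sum_congr rfl fun i _ => hs i v
  have e3 : ∑ j, a v j = ∑ j ∈ X, a v j + ∑ j ∈ Xᶜ, a v j := (sum_add_sum_compl X _).symm
  rw [e2, e3]
  ring

/-- all sizes of cuts -/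
noncomputable def vals (a : V → V → ℤ) : Finset ℤ := univ.image (cut a)

theorem mem_vals (a : V → V → ℤ) (X : Finset V) : cut a X ∈ vals a := mem_image_of_mem _ (mem_univ X)

/-- there are at least `#X + 1` sizes of cuts which are at most the size of the cut `X` -/
def Good (a : V → V → ℤ) (X : Finset V) : Prop := #X + 1 ≤ #{c ∈ vals a | c ≤ cut a X}

theorem good_empty (a : V → V → ℤ) : Good a ∅ := by
  unfold Good
  rw [card_empty, zero_add]
  exact card_pos.2 ⟨cut a ∅, mem_filter.2 ⟨mem_vals a ∅, le_rfl⟩⟩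

theorem good_insert (a : V → V → ℤ) (X : Finset V) (v : V) (hv : v ∉ X) (hX : Good a X)
    (h : cut a X < cut a (insert v X)) : Good a (insert v X) := by
  unfold Good at *
  rw [card_insert_of_notMem hv]
  refine lt_of_le_of_lt hX (card_lt_card ?_)
  refine ⟨fun c hc => ?_, fun hsub => ?_⟩
  · rw [mem_filter] at hc ⊢
    exact ⟨hc.1, hc.2.trans h.le⟩
  · have := hsub (mem_filter.2 ⟨mem_vals a (insert v X), le_rfl⟩)
    rw [mem_filter] at this
    exact absurd this.2 (not_le.2 h)

theorem good_le (a : V → V → ℤ) (X : Finset V) (h : Good a X) : #X + 1 ≤ #(vals a) :=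
  h.trans (card_le_card (filter_subset _ _))

theorem indep_good (a : V → V → ℤ) (hs : ∀ i j, a i j = a j i) (h0 : ∀ i, a i i = 0)
    (Z : Finset V) (hZ : ∀ u ∈ Z, ∀ v ∈ Z, a u v = 0)
    (hd : ∀ u ∈ Z, 0 < ∑ j, a u j) : Good a Z := by
  induction Z using Finset.induction_on with
  | empty => exact good_empty a
  | insert u Z hu ih =>
    have h1 := ih (fun x hx y hy => hZ x (mem_insert_of_mem hx) y (mem_insert_of_mem hy))
      (fun x hx => hd x (mem_insert_of_mem hx))
    refine good_insert a Z u hu h1 ?_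
    rw [cut_insert a hs h0 Z u hu]
    have h2 : ∑ j ∈ Z, a u j = 0 :=
      sum_eq_zero fun j hj => hZ u (mem_insert_self _ _) j (mem_insert_of_mem hj)
    have h3 := hd u (mem_insert_self _ _)
    rw [h2]
    linarith

theorem down (a : V → V → ℤ) (hs : ∀ i j, a i j = a j i) (h0 : ∀ i, a i i = 0)
    (hn : ∀ i j, 0 ≤ a i j) (X W : Finset V) (hXW : Disjoint X W)
    (hW : ∀ u ∈ W, ∑ j, a u j - 2 * ∑ j ∈ X, a u j ≤ 0) :
    cut a (X ∪ W) ≤ cut a X ∧ ∃ Z ⊆ W, (∀ u ∈ Z, ∀ v ∈ Z, a u v = 0) ∧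
      #W + 1 ≤ #Z + #{c ∈ vals a | cut a (X ∪ W) ≤ c ∧ c ≤ cut a X} := by
  induction W using Finset.induction_on with
  | empty =>
    rw [union_empty]
    refine ⟨le_rfl, ∅, subset_rfl, by simp, ?_⟩
    simp only [card_empty, zero_add]
    exact card_pos.2 ⟨cut a X, mem_filter.2 ⟨mem_vals a X, le_rfl, le_rfl⟩⟩
  | insert u W hu ih =>
    have hXW' : Disjoint X W := hXW.mono_right (subset_insert _ _)
    obtain ⟨h1, Z, hZW, hZ, h2⟩ := ih hXW' (fun x hx => hW x (mem_insert_of_mem hx))
    have huX : u ∉ X := fun h => (disjoint_left.1 hXW) h (mem_insert_self _ _)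
    have huXW : u ∉ X ∪ W := by
      rw [mem_union]; rintro (h | h)
      · exact huX h
      · exact hu h
    have e0 : X ∪ insert u W = insert u (X ∪ W) := by
      ext x; simp only [mem_union, mem_insert]; tauto
    have e1 := cut_insert a hs h0 (X ∪ W) u huXW
    rw [sum_union hXW'] at e1
    have h3 := hW u (mem_insert_self _ _)
    have h4 : 0 ≤ ∑ j ∈ W, a u j := sum_nonneg fun j _ => hn u j
    rw [e0]
    have h5 : cut a (insert u (X ∪ W)) ≤ cut a (X ∪ W) := by linarith
    refine ⟨h5.trans h1, ?_⟩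
    rw [card_insert_of_notMem hu]
    rcases lt_or_eq_of_le h5 with h6 | h6
    · refine ⟨Z, hZW.trans (subset_insert _ _), hZ, ?_⟩
      have h7 : #{c ∈ vals a | cut a (X ∪ W) ≤ c ∧ c ≤ cut a X} <
          #{c ∈ vals a | cut a (insert u (X ∪ W)) ≤ c ∧ c ≤ cut a X} := by
        apply card_lt_card
        refine ⟨fun c hc => ?_, fun hsub => ?_⟩
        · rw [mem_filter] at hc ⊢
          exact ⟨hc.1, h5.trans hc.2.1, hc.2.2⟩
        · have := hsub (mem_filter.2 ⟨mem_vals a (insert u (X ∪ W)), le_rfl, h5.trans h1⟩)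
          rw [mem_filter] at this
          exact absurd this.2.1 (not_le.2 h6)
      omega
    · have h8 : ∑ j ∈ W, a u j = 0 := by linarith
      have h9 : ∀ j ∈ W, a u j = 0 := (sum_eq_zero_iff_of_nonneg fun j _ => hn u j).1 h8
      refine ⟨insert u Z, insert_subset_insert _ hZW, ?_, ?_⟩
      · intro x hx y hy
        rw [mem_insert] at hx hy
        rcases hx with rfl | hx <;> rcases hy with rfl | hy
        · exact h0 _
        · exact h9 y (hZW hy)
        · rw [hs]; exact h9 x (hZW hx)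
        · exact hZ x hx y hy
      · rw [h6, card_insert_of_notMem (fun h => hu (hZW h))]
        omega

open Classical in
/-- a graph with `n` non-isolated vertices has cuts of at least `n / 3 + 1` different sizes -/
theorem card_vals (a : V → V → ℤ) (hs : ∀ i j, a i j = a j i) (h0 : ∀ i, a i i = 0)
    (hn : ∀ i j, 0 ≤ a i j) : #{v | ∃ w, 0 < a v w} + 3 ≤ 3 * #(vals a) := by
  set P : Finset V := {v | ∃ w, 0 < a v w} with hP
  have hdeg : ∀ u ∈ P, 0 < ∑ j, a u j := by
    intro u hu
    rw [hP, mem_filter] at hu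
    obtain ⟨_, w, hw⟩ := hu
    exact lt_of_lt_of_le hw (single_le_sum (fun j _ => hn u j) (mem_univ w))
  obtain ⟨X, hX, hmax⟩ := exists_max_image (P.powerset.filter (Good a)) card
    ⟨∅, mem_filter.2 ⟨empty_mem_powerset _, good_empty a⟩⟩
  rw [mem_filter, mem_powerset] at hX
  have hW : ∀ u ∈ P \ X, ∑ j, a u j - 2 * ∑ j ∈ X, a u j ≤ 0 := by
    intro u hu
    rw [mem_sdiff] at hu
    by_contra hcon
    push Not at hcon
    have h1 : cut a X < cut a (insert u X) := by
      rw [cut_insert a hs h0 X u hu.2]; linarith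
    have h2 := hmax (insert u X) (mem_filter.2 ⟨mem_powerset.2 (insert_subset hu.1 hX.1),
      good_insert a X u hu.2 hX.2 h1⟩)
    rw [card_insert_of_notMem hu.2] at h2
    omega
  obtain ⟨_, Z, hZW, hZ, h2⟩ := down a hs h0 hn X (P \ X) disjoint_sdiff hW
  have h3 := good_le a X hX.2
  have h4 := good_le a Z (indep_good a hs h0 Z hZ (fun u hu => hdeg u (sdiff_subset (hZW hu))))
  have h5 : #{c ∈ vals a | cut a (X ∪ (P \ X)) ≤ c ∧ c ≤ cut a X} ≤ #(vals a) :=
    card_le_card (filter_subset _ _)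
  have h6 : #(P \ X) + #X = #P := card_sdiff_add_card_eq_card hX.1
  omega

end Pool.Agent.R811.Shad
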