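import Pool.Agent.R811.Shad.Bridge
import Pool.Agent.R811.Shad.Cut
import Pool.Agent.R811.VS.Choices

set_option autoImplicit false

/-! The second moments of the diagrams with a given shadow and the cuts of the interlacement graph. -/

namespace Pool.Agent.R811.Shad

open Finset LaurentPolynomial Pool.Agent.H891R2.Jones Pool.Agent.H832R3.VJ Pool.Agent.R811.Cross
open Pool.Agent.H832R2 Pool.Agent.R811.VS

variable {n : ℕ} (G : Shadow n)

open Classical in
/-- the number of interlaced pairs which consist of a positive and a negative crossing of `G.diagram s`: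
the size of the cut of the interlacement graph given by the positive crossings -/
noncomputable def cutSize (s : Fin n → Bool) : ℕ :=
  #{x : Fin n × Fin n | G.Interlaced x.1 x.2 ∧ s x.1 = true ∧ s x.2 = false}

open Classical in
/-- the adjacency matrix of the interlacement graph -/
noncomputable def adj (i j : Fin n) : ℤ := if G.Interlaced i j then 1 else 0

theorem adj_eq (i j : Fin n) : JR.adjm (word G) i j = adj G i j := by
  unfold JR.adjm adj
  by_cases h : G.Interlaced i j
  · rw [if_pos h, if_pos ((crosses_word G i j).2 h)]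
  · rw [if_neg h, if_neg (fun h' => h ((crosses_word G i j).1 h'))]

theorem interlaced_symm {i j : Fin n} (h : G.Interlaced i j) : G.Interlaced j i := by
  rw [← crosses_word] at h ⊢
  exact JR.crosses_symm _ _ _ h

theorem adj_symm (i j : Fin n) : adj G i j = adj G j i := by
  unfold adj
  by_cases h : G.Interlaced i j
  · rw [if_pos h, if_pos (interlaced_symm G h)]
  · rw [if_neg h, if_neg (fun h' => h (interlaced_symm G h'))]

theorem adj_self (i : Fin n) : adj G i i = 0 := by
  unfold adj
  rw [if_neg]
  intro h
  exact ne_of_interlaced G h rfl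

theorem adj_nonneg (i j : Fin n) : 0 ≤ adj G i j := by
  unfold adj
  split_ifs <;> norm_num

theorem cutSize_eq (s : Fin n → Bool) : (cutSize G s : ℤ) = cut (adj G) {i | s i = true} := by
  classical
  unfold cutSize cut
  rw [card_filter]
  push_cast
  rw [← univ_product_univ, sum_product]
  rw [sum_filter]
  apply sum_congr rfl
  intro i _
  by_cases hi : s i = true
  · rw [if_pos hi]
    rw [compl_filter, sum_filter]
    apply sum_congr rfl
    intro j _
    unfold adj
    by_cases hj : s j = true <;> by_cases h : G.Interlaced i j <;> simp [hi, hj, h]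
  · rw [if_neg hi]
    apply sum_eq_zero
    intro j _
    simp [hi]

theorem Q_eq (s : Fin n → Bool) :
    JR.Q (JR.adjm (word G)) s = ∑ i, ∑ j, adj G i j - 4 * (cutSize G s : ℤ) := by
  classical
  have h1 : (cutSize G s : ℤ) = ∑ i, ∑ j, if s i = true ∧ s j = false then adj G i j else 0 := by
    unfold cutSize
    rw [card_filter]
    push_cast
    rw [← univ_product_univ, sum_product]
    apply sum_congr rfl
    intro i _
    apply sum_congr rfl
    intro j _
    unfold adj
    by_cases h : G.Interlaced i j <;> simp [h]
  have h2 : (cutSize G s : ℤ) = ∑ i, ∑ j, if s i = false ∧ s j = true then adj G i j else 0 := by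
    rw [h1, sum_comm]
    apply sum_congr rfl
    intro i _
    apply sum_congr rfl
    intro j _
    rw [adj_symm G j i]
    by_cases hi : s i = true <;> by_cases hj : s j = true <;> simp [hi, hj]
  unfold JR.Q
  have h3 : ∀ i j, JR.adjm (word G) i j * (JR.sgn (s i) * JR.sgn (s j)) = adj G i j -
      2 * (if s i = true ∧ s j = false then adj G i j else 0) -
      2 * (if s i = false ∧ s j = true then adj G i j else 0) := by
    intro i j
    rw [adj_eq]
    unfold JR.sgn
    cases s i <;> cases s j <;> simp <;> ring
  rw [sum_congr rfl fun i _ => sum_congr rfl fun j _ => h3 i j]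
  simp only [sum_sub_distrib, ← mul_sum]
  rw [← h1, ← h2]
  ring

/-- the second moment is a constant plus `48` times the size of the cut -/
theorem F_cut (hn : 0 < n) : ∃ K : ℤ, ∀ s : Fin n → Bool, F G s = K + 48 * (cutSize G s : ℤ) := by
  obtain ⟨K, hK⟩ := JR.second_moment (word G) ⟨0, hn⟩
  refine ⟨K - 12 * ∑ i, ∑ j, adj G i j, fun s => ?_⟩
  unfold F
  rw [← rho_moment, fPoly_diagram, hK s, Q_eq]
  ring

theorem separated_of_cut {s t : Fin n → Bool} (h : cutSize G s ≠ cutSize G t) :
    Separated 2 (dia G s) (dia G t) := by
  by_contra hsep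
  have h1 : F G s = F G t := F_of_not_separated G s (dia G t) hsep
  rcases Nat.eq_zero_or_pos n with rfl | hn
  · exact h (by congr 1; funext i; exact i.elim0)
  · obtain ⟨K, hK⟩ := F_cut G hn
    rw [hK, hK] at h1
    exact h (by omega)

open Classical in
/-- at least `m / 3 + 1` different sizes, if `m` double points are interlaced with other ones -/
theorem exists_many : ∃ S : Finset (Fin n → Bool),
    #{i | ∃ j, G.Interlaced i j} + 3 ≤ 3 * #S ∧
      ∀ s ∈ S, ∀ t ∈ S, s ≠ t → cutSize G s ≠ cutSize G t := by
  have h1 := card_vals (adj G) (adj_symm G) (adj_self G) (adj_nonneg G)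
  have h2 : ∀ v, (∃ w, 0 < adj G v w) ↔ ∃ j, G.Interlaced v j := by
    intro v
    constructor
    · rintro ⟨w, hw⟩
      refine ⟨w, ?_⟩
      by_contra hcon
      unfold adj at hw
      rw [if_neg hcon] at hw
      exact lt_irrefl _ hw
    · rintro ⟨w, hw⟩
      refine ⟨w, ?_⟩
      unfold adj
      rw [if_pos hw]
      norm_num
  have h1' : #{i | ∃ j, G.Interlaced i j} + 3 ≤ 3 * #(vals (adj G)) := by
    convert h1 using 3
    ext v
    simp only [mem_filter, mem_univ, true_and]
    exact (h2 v).symm
  have h3 : ∀ c : ℤ, ∃ s : Fin n → Bool, c ∈ vals (adj G) → (cutSize G s : ℤ) = c := by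
    intro c
    by_cases hc : c ∈ vals (adj G)
    · have hc' := hc
      unfold vals at hc'
      rw [mem_image] at hc'
      obtain ⟨X, _, rfl⟩ := hc'
      refine ⟨fun i => decide (i ∈ X), fun _ => ?_⟩
      rw [cutSize_eq]
      congr 1
      ext i
      simp
    · exact ⟨fun _ => true, fun h => absurd h hc⟩
  choose g hg using h3
  refine ⟨(vals (adj G)).image g, ?_, ?_⟩
  · rw [card_image_of_injOn]
    · exact h1'
    · intro c hc c' hc' h
      have e1 := hg c (mem_coe.1 hc)
      have e2 := hg c' (mem_coe.1 hc')
      rw [← e1, ← e2, h]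
  · intro s hs t ht hst hcut
    rw [mem_image] at hs ht
    obtain ⟨c, hc, rfl⟩ := hs
    obtain ⟨c', hc', rfl⟩ := ht
    apply hst
    have e1 := hg c hc
    have e2 := hg c' hc'
    have : c = c' := by rw [← e1, ← e2, hcut]
    rw [this]

end Pool.Agent.R811.Shad
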